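import Pool.Agent.H224R3.Dom4

/-!
# Modes of the domination polynomial far from the average size of a dominating set

There is a graph on `n` vertices such that every mode of its domination polynomial differs from
the average size of a dominating set by at least `n / (3 * 10 ^ 6) > 10 ^ 19`.
-/

set_option autoImplicit false

namespace Pool.Agent.Results.MP_fd33cb_co.FarMode

open Finset Pool.Agent.H224R3.Dom

/-- the number of dominating sets of size `i` -/
noncomputable def domCount {V : Type} (G : SimpleGraph V) (i : ℕ) : ℕ :=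
  {S : Finset V | S.card = i ∧ ∀ v : V, v ∈ S ∨ ∃ u ∈ S, G.Adj v u}.ncard

/-- the average size of a dominating set -/
noncomputable def avd {V : Type} [Fintype V] (G : SimpleGraph V) : ℝ :=
  (∑ i ∈ range (Fintype.card V + 1), (i : ℝ) * domCount G i) /
    ∑ i ∈ range (Fintype.card V + 1), (domCount G i : ℝ)

/-- `m` is a mode of the domination polynomial -/
def IsMode {V : Type} (G : SimpleGraph V) (m : ℕ) : Prop :=
  ∀ i, domCount G i ≤ domCount G m

variable {a M : ℕ}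

theorem sz_le (c : C a M) : sz c ≤ Fintype.card (V a M) := by
  obtain ⟨S, rfl⟩ := (toC a M).surjective c
  rw [sz_toC]
  exact card_le_univ S

theorem card_V : Fintype.card (V a M) = 8 * a + M := by
  simp only [Fintype.card_sum, Fintype.card_prod, Fintype.card_fin]
  ring

theorem domCount_eq (e : Fin M → Fin a × Fin a) (k : ℕ) : domCount (G e) k = dk e k :=
  ncard_eq e k

theorem sum_sz (e : Fin M → Fin a × Fin a) (f : ℕ → ℝ) :
    ∑ i ∈ range (Fintype.card (V a M) + 1), f i * dk e i = ∑ c ∈ univ.filter (Dm e), f (sz c) := by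
  rw [← sum_fiberwise_of_maps_to (s := univ.filter (Dm e))
    (t := range (Fintype.card (V a M) + 1)) (g := sz)
    (fun c _ => mem_range.2 (Nat.lt_succ_of_le (sz_le c)))]
  apply sum_congr rfl
  intro i _
  rw [dk, sum_congr rfl (g := fun _ => f i) (fun c hc => by rw [(mem_filter.1 hc).2]), sum_const,
    nsmul_eq_mul, mul_comm]

theorem inter_card (a M : ℕ) :
    (((D1 a M) ∩ (D2 a M)).card : ℝ) ≤ 8 ^ a * (8 ^ a * 2 ^ M) := by
  have hsub : (D1 a M) ∩ (D2 a M) ⊆ Fintype.piFinset (fun _ : Fin a => VIS) ×ˢ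
      (Fintype.piFinset (fun _ : Fin a => VIIS) ×ˢ
        Fintype.piFinset (fun _ : Fin M => (univ : Finset Bool))) := by
    intro c hc
    simp only [D1, D2, mem_inter, mem_product] at hc ⊢
    exact ⟨hc.2.1, hc.1.2.1, hc.1.2.2⟩
  have h1 := card_le_card hsub
  have e1 : VIS.card = 8 := by decide
  have e2 : VIIS.card = 8 := by decide
  rw [card_product, card_product, Fintype.card_piFinset, Fintype.card_piFinset,
    Fintype.card_piFinset, prod_const, prod_const, prod_const, card_univ, card_univ, e1, e2,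
    card_univ, Fintype.card_fin, Fintype.card_fin, Fintype.card_bool] at h1
  exact_mod_cast h1

/-- elements far from the mean are few -/
theorem tail {α : Type*} {A : Finset α} {f : α → ℕ} {N m v : ℝ} (h : Mom (gp A f) N m v)
    (L : ℝ) (hL : 0 < L) :
    ((A.filter (fun x => ¬ |(f x : ℝ) - m| < L)).card : ℝ) ≤ v * N / L ^ 2 := by
  have h0 := h.h0
  rw [gp_eval0] at h0
  have e1 : ((A.filter (fun x => |(f x : ℝ) - m| < L)).card : ℝ) +
      ((A.filter (fun x => ¬ |(f x : ℝ) - m| < L)).card : ℝ) = N := by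
    rw [← h0]
    exact_mod_cast card_filter_add_card_filter_not (s := A) (fun x => |(f x : ℝ) - m| < L)
  have h2 := cheb h L hL
  rw [le_div_iff₀ (by positivity)]
  nlinarith

/-- the general estimate -/
theorem general (e : Fin M → Fin a × Fin a) (Z S1 S2 v1 v2 δ n w L : ℝ) (p L' : ℕ)
    (hm1 : Mom (gp (D1 a M) sz) Z S1 v1) (hm2 : Mom (gp (D2 a M) sz) Z S2 v2)
    (hZ : 0 < Z) (hT : ((univ.filter (Dm e)).card : ℝ) ≤ (2 + δ) * Z)
    (hI : (((D1 a M) ∩ (D2 a M)).card : ℝ) ≤ δ * Z)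
    (hn : (Fintype.card (V a M) : ℝ) = n) (hS1 : 0 ≤ S1) (hS1n : S1 ≤ n) (hS2 : 0 ≤ S2)
    (hw : 0 < w) (hsep : S2 + 5 * w ≤ S1) (hδn : 3 * δ * n ≤ w / 2)
    (hL' : (L' : ℝ) = L) (hL : 0 < L) (hp : (p : ℝ) + L' = S1) (hv : v1 * 4 ≤ L ^ 2)
    (hfin : v1 / w ^ 2 + v2 / w ^ 2 + 2 * δ < 3 / (8 * L)) (m : ℕ) (hm : IsMode (G e) m) :
    w ≤ |(m : ℝ) - avd (G e)| := by
  set A := univ.filter (Dm e) with hA
  set D1' := D1 a M with hD1'
  set D2' := D2 a M with hD2'
  have hc1 : (D1'.card : ℝ) = Z := by have := hm1.h0; rwa [gp_eval0] at this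
  have hc2 : (D2'.card : ℝ) = Z := by have := hm2.h0; rwa [gp_eval0] at this
  have hs1 : ∑ c ∈ D1', (sz c : ℝ) = S1 * Z := by have := hm1.h1; rwa [gp_eval1] at this
  have hs2 : ∑ c ∈ D2', (sz c : ℝ) = S2 * Z := by have := hm2.h1; rwa [gp_eval1] at this
  have hsub1 : D1' ⊆ A := fun c hc => mem_filter.2 ⟨mem_univ _, D1_sub e hc⟩
  have hsub2 : D2' ⊆ A := fun c hc => mem_filter.2 ⟨mem_univ _, D2_sub e hc⟩
  have hδ0 : 0 ≤ δ := by
    by_contra hneg
    push Not at hneg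
    have h1 : (0 : ℝ) ≤ ((D1' ∩ D2').card : ℝ) := Nat.cast_nonneg _
    nlinarith
  have hn0 : 0 ≤ n := hS1.trans hS1n
  -- the remaining configurations
  have hun : ((D1' ∪ D2').card : ℝ) + ((D1' ∩ D2').card : ℝ) = 2 * Z := by
    have := card_union_add_card_inter D1' D2'
    have h2 : ((D1' ∪ D2').card : ℝ) + ((D1' ∩ D2').card : ℝ) = D1'.card + D2'.card := by
      exact_mod_cast this
    rw [h2, hc1, hc2]; ring
  have hrest : ((A \ (D1' ∪ D2')).card : ℝ) ≤ 2 * δ * Z := by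
    have h1 := card_sdiff_add_card_eq_card (union_subset hsub1 hsub2)
    have h2 : ((A \ (D1' ∪ D2')).card : ℝ) + ((D1' ∪ D2').card : ℝ) = A.card := by
      exact_mod_cast h1
    nlinarith
  -- the mode is attained at a large value
  have hwin := window e D1' (fun c hc => D1_sub e hc) hm1 hZ.le p L' (by
    have : (0 : ℝ) < L' := by rw [hL']; exact hL
    exact_mod_cast this) hp (by rw [hL']; exact hv)
  have hbig : 3 / 4 * Z ≤ 2 * L * (dk e m : ℝ) := by
    refine hwin.trans ?_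
    calc ∑ k ∈ Ico p (p + 2 * L'), (dk e k : ℝ) ≤ ∑ k ∈ Ico p (p + 2 * L'), (dk e m : ℝ) := by
          apply sum_le_sum
          intro k _
          have := hm k
          rw [domCount_eq, domCount_eq] at this
          exact_mod_cast this
      _ = 2 * L * (dk e m : ℝ) := by
          rw [sum_const, Nat.card_Ico, nsmul_eq_mul]
          have : p + 2 * L' - p = 2 * L' := by omega
          rw [this]
          push_cast
          rw [hL']
  -- hence the mode is far from the middle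
  have hfar : 3 / 2 * w < |(m : ℝ) - (S1 + S2) / 2| := by
    by_contra hcon
    push Not at hcon
    rw [abs_le] at hcon
    have hsub : (A.filter (fun c => sz c = m)) ⊆
        (D1'.filter (fun c => ¬ |((sz c : ℕ) : ℝ) - S1| < w)) ∪
          ((D2'.filter (fun c => ¬ |((sz c : ℕ) : ℝ) - S2| < w)) ∪ (A \ (D1' ∪ D2'))) := by
      intro c hc
      rw [mem_filter] at hc
      rw [mem_union, mem_union, mem_filter, mem_filter, mem_sdiff, mem_union]
      by_cases h1 : c ∈ D1'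
      · left
        refine ⟨h1, ?_⟩
        rw [hc.2, not_lt, le_abs]
        right
        linarith [hcon.2]
      · by_cases h2 : c ∈ D2'
        · right; left
          refine ⟨h2, ?_⟩
          rw [hc.2, not_lt, le_abs]
          left
          linarith [hcon.1]
        · right; right
          exact ⟨hc.1, fun h => h.elim h1 h2⟩
    have h1 : (dk e m : ℝ) ≤ v1 * Z / w ^ 2 + (v2 * Z / w ^ 2 + 2 * δ * Z) := by
      have h2 : dk e m ≤ _ := (card_le_card hsub).trans ((card_union_le _ _).trans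
        (Nat.add_le_add_left (card_union_le _ _) _))
      have h3 : (dk e m : ℝ) ≤ ((D1'.filter (fun c => ¬ |((sz c : ℕ) : ℝ) - S1| < w)).card : ℝ) +
          (((D2'.filter (fun c => ¬ |((sz c : ℕ) : ℝ) - S2| < w)).card : ℝ) +
            ((A \ (D1' ∪ D2')).card : ℝ)) := by exact_mod_cast h2
      have h4 := tail hm1 w hw
      have h5 := tail hm2 w hw
      linarith
    have h6 : v1 * Z / w ^ 2 + (v2 * Z / w ^ 2 + 2 * δ * Z) =
        (v1 / w ^ 2 + v2 / w ^ 2 + 2 * δ) * Z := by ring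
    rw [h6] at h1
    have h7 : 2 * L * (dk e m : ℝ) ≤ 2 * L * ((v1 / w ^ 2 + v2 / w ^ 2 + 2 * δ) * Z) :=
      mul_le_mul_of_nonneg_left h1 (by positivity)
    have h8 : 2 * L * ((v1 / w ^ 2 + v2 / w ^ 2 + 2 * δ) * Z) < 2 * L * (3 / (8 * L) * Z) := by
      apply mul_lt_mul_of_pos_left _ (by positivity)
      exact mul_lt_mul_of_pos_right hfin hZ
    have h9 : 2 * L * (3 / (8 * L) * Z) = 3 / 4 * Z := by field_simp; ring
    linarith
  -- the average is near the middle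
  have havg : |avd (G e) - (S1 + S2) / 2| ≤ w / 2 := by
    have hAcard : Z ≤ (A.card : ℝ) := by
      rw [← hc1]
      exact_mod_cast card_le_card hsub1
    have hApos : (0 : ℝ) < A.card := lt_of_lt_of_le hZ hAcard
    have hnum : avd (G e) = (∑ c ∈ A, (sz c : ℝ)) / A.card := by
      unfold avd
      simp_rw [domCount_eq]
      rw [sum_sz e (fun i => (i : ℝ))]
      have h1 := sum_sz e (fun _ => (1 : ℝ))
      simp only [one_mul, sum_const, nsmul_eq_mul, mul_one] at h1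
      rw [h1]
    have hdiff : avd (G e) - (S1 + S2) / 2 =
        (∑ c ∈ A, ((sz c : ℝ) - (S1 + S2) / 2)) / A.card := by
      rw [hnum, sum_sub_distrib, sum_const, nsmul_eq_mul]
      field_simp
    have hsplit : ∑ c ∈ A, ((sz c : ℝ) - (S1 + S2) / 2) =
        ∑ c ∈ A \ (D1' ∪ D2'), ((sz c : ℝ) - (S1 + S2) / 2) -
          ∑ c ∈ D1' ∩ D2', ((sz c : ℝ) - (S1 + S2) / 2) := by
      have h1 := sum_sdiff (union_subset hsub1 hsub2) (f := fun c => ((sz c : ℝ) - (S1 + S2) / 2))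
      have h2 := sum_union_inter (s₁ := D1') (s₂ := D2')
        (f := fun c => ((sz c : ℝ) - (S1 + S2) / 2))
      have h3 : ∑ c ∈ D1', ((sz c : ℝ) - (S1 + S2) / 2) +
          ∑ c ∈ D2', ((sz c : ℝ) - (S1 + S2) / 2) = 0 := by
        rw [sum_sub_distrib, sum_sub_distrib, hs1, hs2, sum_const, sum_const, nsmul_eq_mul,
          nsmul_eq_mul, hc1, hc2]
        ring
      linarith
    have hbd : ∀ c : C a M, |(sz c : ℝ) - (S1 + S2) / 2| ≤ n := by
      intro c
      have h1 : (sz c : ℝ) ≤ n := by rw [← hn]; exact_mod_cast sz_le c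
      have h2 : (0 : ℝ) ≤ sz c := Nat.cast_nonneg _
      rw [abs_le]
      constructor <;> linarith
    have hb1 : |∑ c ∈ A \ (D1' ∪ D2'), ((sz c : ℝ) - (S1 + S2) / 2)| ≤ 2 * δ * Z * n := by
      refine (abs_sum_le_sum_abs _ _).trans ((sum_le_sum (fun c _ => hbd c)).trans ?_)
      rw [sum_const, nsmul_eq_mul]
      exact mul_le_mul_of_nonneg_right hrest hn0
    have hb2 : |∑ c ∈ D1' ∩ D2', ((sz c : ℝ) - (S1 + S2) / 2)| ≤ δ * Z * n := by
      refine (abs_sum_le_sum_abs _ _).trans ((sum_le_sum (fun c _ => hbd c)).trans ?_)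
      rw [sum_const, nsmul_eq_mul]
      exact mul_le_mul_of_nonneg_right hI hn0
    rw [hdiff, abs_div, abs_of_pos hApos, div_le_iff₀ hApos, hsplit]
    have h1 := abs_sub (∑ c ∈ A \ (D1' ∪ D2'), ((sz c : ℝ) - (S1 + S2) / 2))
      (∑ c ∈ D1' ∩ D2', ((sz c : ℝ) - (S1 + S2) / 2))
    have h2 : 3 * δ * n * Z ≤ w / 2 * A.card := by
      refine (mul_le_mul_of_nonneg_right hδn hZ.le).trans ?_
      exact mul_le_mul_of_nonneg_left hAcard (by positivity)
    linarith
  have h1 := abs_sub_abs_le_abs_sub ((m : ℝ) - (S1 + S2) / 2) (avd (G e) - (S1 + S2) / 2)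
  have h2 : (m : ℝ) - (S1 + S2) / 2 - (avd (G e) - (S1 + S2) / 2) = m - avd (G e) := by ring
  rw [h2] at h1
  linarith

theorem exp_small (x : ℝ) (hx0 : 0 ≤ x) (hx : x ≤ 1 / 2) : Real.exp x ≤ 1 + 2 * x := by
  have h1 := Real.add_one_le_exp (-x)
  have h2 : Real.exp x * Real.exp (-x) = 1 := by rw [← Real.exp_add]; simp
  have h3 := Real.exp_pos x
  nlinarith

/-- the total number of dominating sets is at most `(2 + δ) Z` -/
theorem total (a M t : ℕ) (hat : a = 100 * t) (ht : 30 ≤ t) (r : ℝ) (hr0 : 0 ≤ r)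
    (hr : r * a ≤ 1 / 10 ^ 30) :
    2 ^ M * (2 * (9 ^ a * (8 + r) ^ a) + (8 + 1 / 4) ^ a * (8 + 1 / 4) ^ a * 16 ^ t) ≤
      (2 + 1 / 10 ^ 29) * ((9 : ℝ) ^ a * (8 ^ a * 2 ^ M)) := by
  have h1 : (8 + r) ^ a ≤ (1 + 1 / 10 ^ 30) * 8 ^ a := by
    have e1 : (8 + r) ^ a = 8 ^ a * (1 + r / 8) ^ a := by
      rw [← mul_pow]; congr 1; ring
    have e2 : (1 + r / 8) ^ a ≤ 1 + 1 / 10 ^ 30 := by
      have f1 : (1 + r / 8) ^ a ≤ Real.exp (a * (r / 8)) := by
        rw [Real.exp_nat_mul]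
        apply pow_le_pow_left₀ (by positivity)
        have := Real.add_one_le_exp (r / 8)
        linarith
      have f2 : (a : ℝ) * (r / 8) ≤ 1 / 10 ^ 30 / 8 := by nlinarith
      have f3 := exp_small (a * (r / 8)) (by positivity) (f2.trans (by norm_num))
      linarith
    rw [e1]
    nlinarith [show (0 : ℝ) < 8 ^ a by positivity]
  have h2 : (8 + 1 / 4 : ℝ) ^ a * (8 + 1 / 4) ^ a * 16 ^ t ≤ (1 / 10 ^ 30) * (9 ^ a * 8 ^ a) := by
    have e0 : (8 + 1 / 4 : ℝ) = 33 / 4 := by norm_num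
    have e1 : (8 + 1 / 4 : ℝ) ^ a * (8 + 1 / 4) ^ a * 16 ^ t = ((33 / 4) ^ 200 * 16) ^ t := by
      calc (8 + 1 / 4 : ℝ) ^ a * (8 + 1 / 4) ^ a * 16 ^ t = (33 / 4) ^ (200 * t) * 16 ^ t := by
            rw [← pow_add, hat, e0, show 100 * t + 100 * t = 200 * t by ring]
        _ = ((33 / 4) ^ 200) ^ t * 16 ^ t := by rw [pow_mul]
        _ = _ := (mul_pow _ _ _).symm
    have e2 : ((9 : ℝ) ^ a * 8 ^ a) = (72 ^ 100) ^ t := by
      rw [← mul_pow, hat, pow_mul, show (9 : ℝ) * 8 = 72 by norm_num]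
    have e3 : ((33 / 4 : ℝ) ^ 200 * 16) ≤ (1 / 10) * 72 ^ 100 := by norm_num
    rw [e1, e2]
    calc ((33 / 4 : ℝ) ^ 200 * 16) ^ t ≤ ((1 / 10) * 72 ^ 100) ^ t :=
          pow_le_pow_left₀ (by positivity) e3 t
      _ = (1 / 10) ^ t * (72 ^ 100) ^ t := mul_pow _ _ _
      _ ≤ (1 / 10 ^ 30) * (72 ^ 100) ^ t := by
          apply mul_le_mul_of_nonneg_right _ (by positivity)
          calc (1 / 10 : ℝ) ^ t ≤ (1 / 10) ^ 30 :=
                pow_le_pow_of_le_one (by norm_num) (by norm_num) ht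
            _ = 1 / 10 ^ 30 := by norm_num
  have p9 : (0 : ℝ) < 9 ^ a := by positivity
  have p2 : (0 : ℝ) < 2 ^ M := by positivity
  have p8 : (0 : ℝ) < 8 ^ a := by positivity
  have h3 : 2 * ((9 : ℝ) ^ a * (8 + r) ^ a) + (8 + 1 / 4) ^ a * (8 + 1 / 4) ^ a * 16 ^ t ≤
      (2 + 1 / 10 ^ 29) * (9 ^ a * 8 ^ a) := by
    have : (9 : ℝ) ^ a * (8 + r) ^ a ≤ 9 ^ a * ((1 + 1 / 10 ^ 30) * 8 ^ a) :=
      mul_le_mul_of_nonneg_left h1 p9.le
    nlinarith [mul_pos p9 p8]
  calc (2 : ℝ) ^ M * (2 * (9 ^ a * (8 + r) ^ a) + (8 + 1 / 4) ^ a * (8 + 1 / 4) ^ a * 16 ^ t)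
      ≤ 2 ^ M * ((2 + 1 / 10 ^ 29) * (9 ^ a * 8 ^ a)) := mul_le_mul_of_nonneg_left h3 p2.le
    _ = _ := by ring

theorem exists_graph (s t M' L' : ℕ) (hs : s = 10 ^ 20) (ht : t = 36 * 10 ^ 18)
    (hM : M' = 10 ^ 26) (hL' : L' = 2 * 10 ^ 13) :
    ∃ e : Fin (2 * M') → Fin (36 * s) × Fin (36 * s), ∀ m : ℕ, IsMode (G e) m →
      (s : ℝ) ≤ |(m : ℝ) - avd (G e)| := by
  have hsR : (s : ℝ) = 10 ^ 20 := by rw [hs]; norm_num
  have htR : (t : ℝ) = 36 * 10 ^ 18 := by rw [ht]; norm_num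
  have hMR : (M' : ℝ) = 10 ^ 26 := by rw [hM]; norm_num
  have hLR : (L' : ℝ) = 2 * 10 ^ 13 := by rw [hL']; norm_num
  have hs0 : 0 < s := by rw [hs]; positivity
  have hat : 36 * s = 100 * t := by rw [hs, ht]; norm_num
  have ht30 : 30 ≤ t := by rw [ht]; norm_num
  have hs1000 : 1000 ≤ s := by rw [hs]; norm_num
  have hLs : L' ≤ 191 * s := by rw [hs, hL']; norm_num
  clear hs ht hM hL'
  obtain ⟨e, he⟩ := exists_e (36 * s) (2 * M') t (by omega)
  refine ⟨e, fun m hm => ?_⟩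
  set Z : ℝ := 9 ^ (36 * s) * (8 ^ (36 * s) * 2 ^ (2 * M')) with hZ
  have hZ0 : 0 < Z := by positivity
  set r : ℝ := Real.exp (-(((2 * M' : ℕ) : ℝ) / (2 * ((36 * s : ℕ) : ℝ) ^ 2) * t)) with hr
  have hr' : r ≤ (1 / 2) ^ 200 := by
    calc r ≤ Real.exp (-200) := by
          rw [hr]
          apply Real.exp_le_exp.2
          have : (200 : ℝ) ≤ ((2 * M' : ℕ) : ℝ) / (2 * ((36 * s : ℕ) : ℝ) ^ 2) * t := by
            push_cast
            rw [hMR, hsR, htR]
            norm_num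
          linarith
      _ = Real.exp (-1) ^ 200 := by rw [← Real.exp_nat_mul]; norm_num
      _ ≤ (1 / 2) ^ 200 := by
          apply pow_le_pow_left₀ (Real.exp_pos _).le
          rw [Real.exp_neg, one_div]
          apply inv_anti₀ (by norm_num)
          have := Real.add_one_le_exp (1 : ℝ)
          linarith
  have hra : r * ((36 * s : ℕ) : ℝ) ≤ 1 / 10 ^ 30 := by
    calc r * ((36 * s : ℕ) : ℝ) ≤ (1 / 2) ^ 200 * ((36 * s : ℕ) : ℝ) := by gcongr
      _ ≤ 1 / 10 ^ 30 := by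
          push_cast
          rw [hsR]
          norm_num
  have htb := total (36 * s) (2 * M') t hat ht30 r (Real.exp_pos _).le hra
  have hT : ((univ.filter (Dm e)).card : ℝ) ≤ (2 + 1 / 10 ^ 29) * Z := he.trans htb
  have hI : (((D1 (36 * s) (2 * M')) ∩ (D2 (36 * s) (2 * M'))).card : ℝ) ≤ 1 / 10 ^ 29 * Z := by
    refine (inter_card _ _).trans ?_
    have h1 : (8 : ℝ) ^ (36 * s) ≤ 1 / 10 ^ 29 * 9 ^ (36 * s) := by
      have h2 : (8 / 9 : ℝ) ^ (36 * s) ≤ 1 / 10 ^ 29 := by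
        calc (8 / 9 : ℝ) ^ (36 * s) ≤ (8 / 9) ^ (200 * 3) :=
              pow_le_pow_of_le_one (by norm_num) (by norm_num) (by omega)
          _ = ((8 / 9) ^ 200) ^ 3 := pow_mul _ _ _
          _ ≤ (1 / 10 ^ 10) ^ 3 := by
              apply pow_le_pow_left₀ (by positivity)
              norm_num
          _ ≤ 1 / 10 ^ 29 := by norm_num
      rw [div_pow, div_le_iff₀ (by positivity)] at h2
      exact h2
    calc (8 : ℝ) ^ (36 * s) * (8 ^ (36 * s) * 2 ^ (2 * M')) ≤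
        (1 / 10 ^ 29 * 9 ^ (36 * s)) * (8 ^ (36 * s) * 2 ^ (2 * M')) := by gcongr
      _ = 1 / 10 ^ 29 * Z := by rw [hZ]; ring
  have hZ2 : (8 : ℝ) ^ (36 * s) * (9 ^ (36 * s) * 2 ^ (2 * M')) = Z := by rw [hZ]; ring
  have m1 := mom1 (36 * s) (2 * M')
  have m2 := mom2 (36 * s) (2 * M')
  rw [hZ2] at m2
  refine general e Z _ _ _ _ (1 / 10 ^ 29) (288 * s + 2 * M') s L' (191 * s + M' - L') L' m1 m2 hZ0
    hT hI ?_ ?_ ?_ ?_ ?_ ?_ ?_ rfl ?_ ?_ ?_ ?_ m hm
  · rw [card_V]; push_cast; ring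
  · positivity
  · push_cast
    rw [hsR, hMR]
    norm_num
  · positivity
  · rw [hsR]; norm_num
  · push_cast
    rw [hsR, hMR]
    norm_num
  · rw [hsR, hMR]
    norm_num
  · rw [hLR]; norm_num
  · rw [Nat.cast_sub (by omega)]
    push_cast
    ring
  · push_cast
    rw [hsR, hMR, hLR]
    norm_num
  · push_cast
    rw [hsR, hMR, hLR]
    norm_num

/-- There is a graph such that every mode `m` of its domination polynomial satisfies
`|m - avd| ≥ n / (3 * 10 ^ 6)`, where `n ≥ 10 ^ 26` is the number of vertices; in particular it is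
not true that every mode is `⌊avd⌋` or `⌈avd⌉`. -/
theorem result :
    (∃ (V : Type) (_ : Fintype V) (G : SimpleGraph V), 10 ^ 26 ≤ Fintype.card V ∧
      (∃ m, IsMode G m) ∧
      ∀ m : ℕ, IsMode G m → (Fintype.card V : ℝ) / (3 * 10 ^ 6) ≤ |(m : ℝ) - avd G|) ∧
    ¬ ∀ (V : Type) [Fintype V] (G : SimpleGraph V) (m : ℕ), IsMode G m →
      (m : ℤ) = ⌊avd G⌋ ∨ (m : ℤ) = ⌈avd G⌉ := by
  obtain ⟨s, hs⟩ : ∃ s : ℕ, s = 10 ^ 20 := ⟨_, rfl⟩
  obtain ⟨t, ht⟩ : ∃ t : ℕ, t = 36 * 10 ^ 18 := ⟨_, rfl⟩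
  obtain ⟨M', hM⟩ : ∃ M' : ℕ, M' = 10 ^ 26 := ⟨_, rfl⟩
  obtain ⟨L', hL⟩ : ∃ L' : ℕ, L' = 2 * 10 ^ 13 := ⟨_, rfl⟩
  obtain ⟨e, he⟩ := exists_graph s t M' L' hs ht hM hL
  have hcard : (Fintype.card (V (36 * s) (2 * M')) : ℝ) / (3 * 10 ^ 6) ≤ s := by
    rw [card_V]
    push_cast
    rw [show (s : ℝ) = 10 ^ 20 by rw [hs]; norm_num, show (M' : ℝ) = 10 ^ 26 by rw [hM]; norm_num]
    norm_num
  have hex : ∃ m, IsMode (G e) m := by
    have hfin : (Set.range (domCount (G e))).Finite := by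
      apply Set.Finite.subset (Set.finite_Iic (Fintype.card (Finset (V (36 * s) (2 * M')))))
      rintro _ ⟨i, rfl⟩
      rw [Set.mem_Iic]
      unfold domCount
      refine (Set.ncard_le_ncard (Set.subset_univ _) (Set.toFinite _)).trans ?_
      rw [Set.ncard_univ, Nat.card_eq_fintype_card]
    obtain ⟨_, ⟨m, rfl⟩, hm⟩ := Set.exists_max_image _ id hfin ⟨_, 0, rfl⟩
    exact ⟨m, fun i => hm _ ⟨i, rfl⟩⟩
  refine ⟨⟨V (36 * s) (2 * M'), inferInstance, G e, ?_, hex, fun m hm => hcard.trans (he m hm)⟩, ?_⟩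
  · rw [card_V, hM]; omega
  · intro h
    obtain ⟨m, hm⟩ := hex
    have h1 := he m hm
    have hs1 : (1 : ℝ) < s := by rw [show (s : ℝ) = 10 ^ 20 by rw [hs]; norm_num]; norm_num
    have h2 : |(m : ℝ) - avd (G e)| ≤ 1 := by
      rcases h _ (G e) m hm with h | h
      · have h3 := Int.floor_le (avd (G e))
        have h4 := Int.lt_floor_add_one (avd (G e))
        rw [← h] at h3 h4
        push_cast at h3 h4
        rw [abs_le]
        constructor <;> linarith
      · have h3 := Int.le_ceil (avd (G e))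
        have h4 := Int.ceil_lt_add_one (avd (G e))
        rw [← h] at h3 h4
        push_cast at h3 h4
        rw [abs_le]
        constructor <;> linarith
    linarith

end Pool.Agent.Results.MP_fd33cb_co.FarMode
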